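import Pool.Agent.Q119.Lev.Add

/-!
# Prescribed levels become linear after adding few lines

The lines are `y = a l * x + B l`, `l : Fin n`. Definitions
(`Pool/Agent/Results/MP_a08d0a_co/SmoothedLevel.lean`):

* `Simple a B`: no two of the lines coincide and no three pass through a common point (parallel
  lines are allowed);
* `psi a B k`: the number of abscissae near which the `k`-level does not follow a single line, i.e.
  the number of vertices of the `k`-level.

`Fin.append a a'`, `Fin.append B B'` are the slopes and intercepts of the old lines followed by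
those of the new lines.
-/

set_option autoImplicit false

open Finset

namespace Pool.Agent.Results.MP_a08d0a_co.AddFewLines

open Pool.Agent.Results.MP_a08d0a_co.SmoothedLevel (Simple psi)

/-- Let `n` lines be given, no two equal and no three concurrent, let `D ≥ 0` and let `K` be any
set of levels `k < n + D`. One can add `D` lines, keeping the arrangement simple, so that the
`k`-levels, `k ∈ K`, of the new arrangement of `n + D` lines have in total at most
`|K| (36 n (n / (D + 1)) ^ (1 / 3) + 4 D)` vertices. -/
theorem result : ∀ (n : ℕ) (a B : Fin n → ℝ), Simple a B → ∀ (D : ℕ) (K : Finset ℕ),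
    (∀ k ∈ K, k < n + D) →
    ∃ a' B' : Fin D → ℝ, Simple (Fin.append a a') (Fin.append B B') ∧
      (∀ k ∈ K, psi (Fin.append a a') (Fin.append B B') k ≠ ⊤) ∧
      ∑ k ∈ K, ((psi (Fin.append a a') (Fin.append B B') k).toNat : ℝ) ≤
        #K * (36 * n * ((n : ℝ) / ((D : ℝ) + 1)) ^ (1 / 3 : ℝ) + 4 * D) :=
  fun _ _ _ hS D K hK => Q119.Lev.add_lines hS D K hK

end Pool.Agent.Results.MP_a08d0a_co.AddFewLines
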