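import Pool.Agent.Q126.LSC

/-! Levels of arrangements of lines that are close to lattice points in the dual plane. -/

set_option autoImplicit false

namespace Pool.Agent.Results.MP_a08d0a_co.PerturbedLattices

open Finset Filter Pool.Agent.H189R2.Lev Pool.Agent.TH124.KE Pool.Agent.Q126.LV
open scoped Topology

open Pool.Agent.Results.MP_a08d0a_co.SmoothedLevel (Simple crossings psi psi_le)

/-- general position -/
theorem inj_simple {n : ℕ} {P : Fin n → ℝ × ℝ} (hP : Pool.Agent.H189R2.Iid.GP P) :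
    Function.Injective (fun l => (P l).1) ∧
      Simple (fun l => (P l).1) (fun l => (P l).2) := by
  have hinj : Function.Injective (fun l => (P l).1) := fun i j h => hP.1 i j h
  refine ⟨hinj, fun i j hij h => absurd (hinj h) hij, ?_⟩
  rintro i j l hij hil hjl ⟨x, h1, h2⟩
  unfold ht at h1 h2
  have hX : ∀ u v : Fin n, (P v).1 < (P u).1 → (P u).1 * x + (P u).2 = (P v).1 * x + (P v).2 →
      Pool.Agent.H189R2.Iid.X2 (P u) (P v) = x := by
    intro u v huv he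
    unfold Pool.Agent.H189R2.Iid.X2
    rw [div_eq_iff (by linarith)]
    linarith
  have n1 : (P i).1 ≠ (P j).1 := fun h => hij (hinj h)
  have n2 : (P i).1 ≠ (P l).1 := fun h => hil (hinj h)
  rcases lt_or_gt_of_ne n1 with c1 | c1
  · rcases lt_or_gt_of_ne n2 with c2 | c2
    · have := hP.2 j i l i c1 c2 ((hX j i c1 h1.symm).trans (hX l i c2 h2.symm).symm)
      exact hjl this.1
    · have := hP.2 j i i l c1 c2 ((hX j i c1 h1.symm).trans (hX i l c2 h2).symm)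
      exact hij this.1.symm
  · rcases lt_or_gt_of_ne n2 with c2 | c2
    · have := hP.2 i j l i c1 c2 ((hX i j c1 h1).trans (hX l i c2 h2.symm).symm)
      exact hil this.1
    · have := hP.2 i j i l c1 c2 ((hX i j c1 h1).trans (hX i l c2 h2).symm)
      exact hjl this.2

/-- the bound for the number of edges, all perturbations -/
theorem kes_all {P : Finset (ℝ × ℝ)} {U V : ℝ × ℝ → ℤ} {M : ℕ} {ε : ℝ} (hM : 1 ≤ M)
    (hP : GP P) (h : Close P U V M ε) (hε : 0 ≤ ε) (k : ℕ) :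
    (#(kes P k) : ℝ) ≤ 68000 * ((M : ℝ) ^ 2 +
      ((M : ℝ) ^ (1 / 3 : ℝ)) ^ 7 * ε ^ (1 / 3 : ℝ)) := by
  classical
  have hM' : (1 : ℝ) ≤ M := by exact_mod_cast hM
  obtain ⟨m, hm0, hm3, hm⟩ := cube_root (x := (M : ℝ)) (by positivity)
  have hmpos : 0 < m := by
    rcases hm0.lt_or_eq with h' | h'
    · exact h'
    · rw [← h'] at hm3; norm_num at hm3; linarith
  have hE : 0 ≤ ((M : ℝ) ^ (1 / 3 : ℝ)) ^ 7 * ε ^ (1 / 3 : ℝ) := by positivity
  rcases le_total ε (1 / (M : ℝ)) with c1 | c1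
  · have h' : Close P U V M (1 / (M : ℝ)) :=
      ⟨fun p hp => (h.u p hp).trans c1, fun p hp => (h.v p hp).trans c1, h.u0, h.v0, h.inj⟩
    have h1 := kes_close hM hP h' le_rfl (by
      rw [div_le_iff₀ (by linarith)]; nlinarith) k
    have h2 : ((M : ℝ) ^ (1 / 3 : ℝ)) ^ 7 * (1 / (M : ℝ)) ^ (1 / 3 : ℝ) = (M : ℝ) ^ 2 := by
      rw [one_div (M : ℝ), Real.inv_rpow (by positivity), hm, ← hm3]
      field_simp
    rw [h2] at h1
    linarith
  · rcases le_total ε M with c2 | c2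
    · have h1 := kes_close hM hP h c1 c2 k
      have : (0 : ℝ) ≤ (M : ℝ) ^ 2 := by positivity
      linarith
    · have h1 := dey hP k
      have hcard : #P ≤ M * M := by
        have h2 : #P ≤ #(Ico (0 : ℤ) M ×ˢ Ico (0 : ℤ) M) := by
          apply card_le_card_of_injOn (fun p => (U p, V p))
          · intro p hp
            rw [mem_coe, mem_product, mem_Ico, mem_Ico]
            exact ⟨h.u0 p hp, h.v0 p hp⟩
          · intro p hp q hq hpq
            simp only [Prod.mk.injEq] at hpq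
            exact h.inj p hp q hq hpq.1 hpq.2
        rw [card_product, Int.card_Ico, sub_zero, Int.toNat_natCast] at h2
        exact h2
      have hcard' : (#P : ℝ) ≤ m ^ 6 := by
        have : (#P : ℝ) ≤ (M : ℝ) * M := by exact_mod_cast hcard
        rw [← hm3] at this
        linarith [show m ^ 3 * m ^ 3 = m ^ 6 by ring]
      have h3 : ((#P : ℝ) * #P) ^ (2 / 3 : ℝ) ≤ m ^ 8 := by
        have h4 : ((#P : ℝ) * #P) ^ (2 / 3 : ℝ) ≤ ((m ^ 4) ^ 3) ^ (2 / 3 : ℝ) := by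
          apply Real.rpow_le_rpow (by positivity) _ (by norm_num)
          calc (#P : ℝ) * #P ≤ m ^ 6 * m ^ 6 :=
                mul_le_mul hcard' hcard' (by positivity) (by positivity)
            _ = (m ^ 4) ^ 3 := by ring
        have h5 : ((m ^ 4) ^ 3) ^ (2 / 3 : ℝ) = (m ^ 4) ^ 2 := by
          exact_mod_cast pow_cube (by positivity : 0 ≤ m ^ 4) 2
        rw [h5] at h4
        linarith [show (m ^ 4) ^ 2 = m ^ 8 by ring]
      have h6 : m ≤ ε ^ (1 / 3 : ℝ) := by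
        rw [← hm]
        exact Real.rpow_le_rpow (by positivity) c2 (by norm_num)
      rw [hm]
      have h7 : m ^ 7 * m ≤ m ^ 7 * ε ^ (1 / 3 : ℝ) :=
        mul_le_mul_of_nonneg_left h6 (by positivity)
      have h8 : m ^ 7 * m = m ^ 8 := by ring
      have h9 : (0 : ℝ) ≤ (M : ℝ) ^ 2 := by positivity
      have h10 : 0 ≤ m ^ 8 := by positivity
      linarith

/-- The complexity of a level for general position. -/
theorem psi_gp {n M : ℕ} (hM : 1 ≤ M) (g : Fin n → ℤ × ℤ) (hg : Function.Injective g)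
    (hbox : ∀ i, (0 ≤ (g i).1 ∧ (g i).1 < M) ∧ 0 ≤ (g i).2 ∧ (g i).2 < M)
    {P : Fin n → ℝ × ℝ} (hP : Pool.Agent.H189R2.Iid.GP P) {ε : ℝ} (hε : 0 ≤ ε)
    (hcl : ∀ i, |(P i).1 - (g i).1| ≤ ε ∧ |(P i).2 - (g i).2| ≤ ε) {k : ℕ} (hk : k < n) :
    ∃ K : ℕ, psi (fun l => (P l).1) (fun l => (P l).2) k ≤ K ∧
      (K : ℝ) ≤ 136000 * ((M : ℝ) ^ 2 + ((M : ℝ) ^ (1 / 3 : ℝ)) ^ 7 * ε ^ (1 / 3 : ℝ)) := by
  classical
  obtain ⟨hinj, hS⟩ := inj_simple hP
  have : Nonempty (Fin n) := ⟨⟨k, hk⟩⟩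
  have hPinj : Function.Injective P := fun i j h => hinj (congrArg Prod.fst h)
  set σ := Function.invFun P with hσ
  have hσP : ∀ i, σ (P i) = i := Function.leftInverse_invFun hPinj
  set Q : Finset (ℝ × ℝ) := pts (fun l => (P l).1) (fun l => (P l).2) with hQ
  have hmem : ∀ p ∈ Q, ∃ i, P i = p := by
    intro p hp
    obtain ⟨i, -, hi⟩ := mem_image.1 hp
    exact ⟨i, hi⟩
  have hclose : Close Q (fun p => (g (σ p)).1) (fun p => (g (σ p)).2) M ε := by
    constructor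
    · intro p hp
      obtain ⟨i, rfl⟩ := hmem p hp
      rw [hσP]
      exact (hcl i).1
    · intro p hp
      obtain ⟨i, rfl⟩ := hmem p hp
      rw [hσP]
      exact (hcl i).2
    · intro p hp
      obtain ⟨i, rfl⟩ := hmem p hp
      rw [hσP]
      exact (hbox i).1
    · intro p hp
      obtain ⟨i, rfl⟩ := hmem p hp
      rw [hσP]
      exact (hbox i).2
    · intro p hp q hq h1 h2
      obtain ⟨i, rfl⟩ := hmem p hp
      obtain ⟨j, rfl⟩ := hmem q hq
      rw [hσP, hσP] at h1 h2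
      rw [hg (Prod.ext h1 h2)]
  have hgp := gp_pts (B := fun l => (P l).2) hinj hS
  have h1 := crossings_le (B := fun l => (P l).2) hinj k
  have h2 := crossings_le (B := fun l => (P l).2) hinj (k - 1)
  have h3 := kes_all hM hgp hclose hε k
  have h4 := kes_all hM hgp hclose hε (k - 1)
  have h5 := psi_le hS hk
  refine ⟨#(kes Q k) + #(kes Q (k - 1)), h5.trans ?_, ?_⟩
  · have h6 : (crossings (fun l => (P l).1) (fun l => (P l).2) k).ncard +
        (if k = 0 then 0 else (crossings (fun l => (P l).1) (fun l => (P l).2) (k - 1)).ncard) ≤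
        #(kes Q k) + #(kes Q (k - 1)) := by
      split_ifs
      · exact Nat.add_le_add h1 (Nat.zero_le _)
      · exact Nat.add_le_add h1 h2
    exact_mod_cast h6
  · push_cast
    linarith

/-- **Levels of perturbed lattice arrangements.** -/
theorem main {n M : ℕ} (hM : 1 ≤ M) (g : Fin n → ℤ × ℤ) (hg : Function.Injective g)
    (hbox : ∀ i, (0 ≤ (g i).1 ∧ (g i).1 < M) ∧ 0 ≤ (g i).2 ∧ (g i).2 < M)
    (a B : Fin n → ℝ) {ε : ℝ} (hε : 0 ≤ ε)
    (hcl : ∀ i, |a i - (g i).1| ≤ ε ∧ |B i - (g i).2| ≤ ε) {k : ℕ} (hk : k < n) :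
    ∃ K : ℕ, psi a B k ≤ K ∧
      (K : ℝ) ≤ 140000 * ((M : ℝ) ^ 2 + ((M : ℝ) ^ (1 / 3 : ℝ)) ^ 7 * ε ^ (1 / 3 : ℝ)) := by
  classical
  have hM' : (1 : ℝ) ≤ M := by exact_mod_cast hM
  obtain ⟨m, hm0, hm3, hm⟩ := cube_root (x := (M : ℝ)) (by positivity)
  have hmpos : 0 < m := by
    rcases hm0.lt_or_eq with h' | h'
    · exact h'
    · rw [← h'] at hm3; norm_num at hm3; linarith
  set Y : ℝ := 140000 * ((M : ℝ) ^ 2 + ((M : ℝ) ^ (1 / 3 : ℝ)) ^ 7 * ε ^ (1 / 3 : ℝ)) with hY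
  have hY0 : 0 ≤ Y := by positivity
  refine ⟨⌊Y⌋₊, ?_, Nat.floor_le hY0⟩
  apply psi_lsc a B hk
  rw [frequently_iff]
  intro U hU
  set η : ℝ := (1 / (34 * m)) ^ 3 with hη
  have hηpos : 0 < η := by positivity
  obtain ⟨P, ⟨hPU, hPb⟩, hP⟩ := Pool.Agent.Y344.KD.exists_near _
    (inter_mem hU (Metric.ball_mem_nhds (fun l => (a l, B l)) hηpos))
  refine ⟨P, hPU, ?_⟩
  rw [Metric.mem_ball, dist_pi_lt_iff hηpos] at hPb
  have hcl' : ∀ i, |(P i).1 - (g i).1| ≤ ε + η ∧ |(P i).2 - (g i).2| ≤ ε + η := by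
    intro i
    have h1 := hPb i
    rw [Prod.dist_eq, max_lt_iff, Real.dist_eq, Real.dist_eq] at h1
    have h2 := abs_lt.1 h1.1
    have h3 := abs_lt.1 h1.2
    have h4 := abs_le.1 (hcl i).1
    have h5 := abs_le.1 (hcl i).2
    exact ⟨abs_le.2 ⟨by linarith, by linarith⟩, abs_le.2 ⟨by linarith, by linarith⟩⟩
  obtain ⟨K, hK1, hK2⟩ := psi_gp hM g hg hbox hP (by positivity : 0 ≤ ε + η) hcl' hk
  refine hK1.trans ?_
  have h1 : (ε + η) ^ (1 / 3 : ℝ) ≤ ε ^ (1 / 3 : ℝ) + η ^ (1 / 3 : ℝ) :=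
    Real.rpow_add_le_add_rpow hε hηpos.le (by norm_num) (by norm_num)
  have h2 : η ^ (1 / 3 : ℝ) = 1 / (34 * m) := by
    have := pow_cube (by positivity : 0 ≤ 1 / (34 * m)) 1
    rw [hη]
    simpa using this
  have h3 : (K : ℝ) ≤ Y := by
    rw [hm] at hK2
    rw [hY, hm]
    have h4 : m ^ 7 * (ε + η) ^ (1 / 3 : ℝ) ≤ m ^ 7 * (ε ^ (1 / 3 : ℝ) + 1 / (34 * m)) := by
      apply mul_le_mul_of_nonneg_left _ (by positivity)
      rw [← h2]
      exact h1
    have h5 : m ^ 7 * (ε ^ (1 / 3 : ℝ) + 1 / (34 * m)) =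
        m ^ 7 * ε ^ (1 / 3 : ℝ) + (M : ℝ) ^ 2 / 34 := by
      rw [← hm3]
      field_simp
    have h6 : 0 ≤ m ^ 7 * ε ^ (1 / 3 : ℝ) := by positivity
    linarith
  have h4 : K ≤ ⌊Y⌋₊ := Nat.le_floor h3
  exact_mod_cast h4

/-- **Levels of perturbed lattice arrangements.** Let `n` lines `y = a i * x + B i` be given such
that the points `(a i, B i)` are at distance at most `ε` (in each coordinate) from different
lattice points of the box `[0, M) × [0, M)`. Then every level has complexity at most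
`140000 * (M ^ 2 + M ^ (7 / 3) * ε ^ (1 / 3))`. If the lattice points are at least `c * M ^ 2` in
number, this is at most `140000 * (n / c + (n / c) ^ (7 / 6) * ε ^ (1 / 3))`; if furthermore
`ε ≤ 1 / M`, every level has complexity at most `280000 / c * n`. -/
theorem result {n M : ℕ} (hM : 1 ≤ M) (g : Fin n → ℤ × ℤ) (hg : Function.Injective g)
    (hbox : ∀ i, (0 ≤ (g i).1 ∧ (g i).1 < M) ∧ 0 ≤ (g i).2 ∧ (g i).2 < M)
    (a B : Fin n → ℝ) {ε : ℝ} (hε : 0 ≤ ε)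
    (hcl : ∀ i, |a i - (g i).1| ≤ ε ∧ |B i - (g i).2| ≤ ε) {k : ℕ} (hk : k < n) :
    ∃ K : ℕ, psi a B k ≤ K ∧
      (K : ℝ) ≤ 140000 * ((M : ℝ) ^ 2 + (M : ℝ) ^ (7 / 3 : ℝ) * ε ^ (1 / 3 : ℝ)) ∧
      ∀ c : ℝ, 0 < c → c * (M : ℝ) ^ 2 ≤ n →
        (K : ℝ) ≤ 140000 * (n / c + (n / c) ^ (7 / 6 : ℝ) * ε ^ (1 / 3 : ℝ)) ∧
        (ε ≤ 1 / M → (K : ℝ) ≤ 280000 / c * n) := by
  have hM' : (1 : ℝ) ≤ M := by exact_mod_cast hM
  obtain ⟨m, hm0, hm3, hm⟩ := cube_root (x := (M : ℝ)) (by positivity)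
  have hmpos : 0 < m := by
    rcases hm0.lt_or_eq with h' | h'
    · exact h'
    · rw [← h'] at hm3; norm_num at hm3; linarith
  obtain ⟨K, hK1, hK2⟩ := main hM g hg hbox a B hε hcl hk
  have h7 : (M : ℝ) ^ (7 / 3 : ℝ) = m ^ 7 := by
    rw [← hm3]
    exact_mod_cast pow_cube hm0 7
  rw [hm] at hK2
  rw [h7]
  refine ⟨K, hK1, hK2, fun c hc hn => ?_⟩
  have h2 : (M : ℝ) ^ 2 ≤ n / c := by
    rw [le_div_iff₀ hc]; linarith
  have h3 : m ^ 7 ≤ ((n : ℝ) / c) ^ (7 / 6 : ℝ) := by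
    have h4 : ((M : ℝ) ^ 2) ^ (7 / 6 : ℝ) ≤ ((n : ℝ) / c) ^ (7 / 6 : ℝ) :=
      Real.rpow_le_rpow (by positivity) h2 (by norm_num)
    have h5 : ((M : ℝ) ^ 2) ^ (7 / 6 : ℝ) = m ^ 7 := by
      rw [← h7, ← Real.rpow_natCast, ← Real.rpow_mul (by positivity)]
      norm_num
    linarith
  refine ⟨?_, fun hεM => ?_⟩
  · have h6 : m ^ 7 * ε ^ (1 / 3 : ℝ) ≤ ((n : ℝ) / c) ^ (7 / 6 : ℝ) * ε ^ (1 / 3 : ℝ) :=
      mul_le_mul_of_nonneg_right h3 (by positivity)
    linarith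
  · have h6 : ε ^ (1 / 3 : ℝ) ≤ m⁻¹ := by
      rw [← hm, ← Real.inv_rpow (by positivity), ← one_div]
      exact Real.rpow_le_rpow hε hεM (by norm_num)
    have h8 : m ^ 7 * ε ^ (1 / 3 : ℝ) ≤ m ^ 7 * m⁻¹ := mul_le_mul_of_nonneg_left h6 (by positivity)
    have h9 : m ^ 7 * m⁻¹ = (M : ℝ) ^ 2 := by
      rw [← hm3]
      field_simp
    have h10 : 280000 / c * (n : ℝ) = 280000 * (n / c) := by ring
    rw [h10]
    linarith

end Pool.Agent.Results.MP_a08d0a_co.PerturbedLattices
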