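import Pool.Agent.Q119.Lev.DelFin

/-!
# The middle level (and every proportional level) becomes linear after few deletions

The lines are `y = a l * x + B l`, `l : Fin n`. Definitions:

* `Simple a B`: no two of the lines coincide and no three pass through a common point (parallel
  lines are allowed); `psi a B k`: the number of abscissae near which the `k`-level does not follow
  a single line, i.e. the number of vertices of the `k`-level
  (`Pool/Agent/Results/MP_a08d0a_co/SmoothedLevel.lean`),
* `sub f R`: for a set `R` of indices, the family `f` restricted to `R`, listed in increasing order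
  of the indices (`Pool/Agent/Y344/KD/Lines.lean`); `sub a R`, `sub B R` are the slopes and the
  intercepts of the lines with index in `R`.
-/

set_option autoImplicit false

open Finset

namespace Pool.Agent.Results.MP_a08d0a_co.ProportionalLevels

open Pool.Agent.Results.MP_a08d0a_co.SmoothedLevel (Simple psi)
open Pool.Agent.Y344.KD (sub)

/-- Let `n ≥ 1` lines be given, no two equal and no three concurrent, let `A` be a finite set of
ratios `α`, `0 < α < 1`, and let `0 < δ ≤ 1`. One can delete at most `δ n` of the lines so that, if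
`m` lines remain, the `⌊α m⌋`-levels of the remaining arrangement, `α ∈ A` (for `α = 1 / 2` the
middle level), have in total at most `720 n δ ^ (-1 / 3) ∑_{α ∈ A} 1 / min α (1 - α)` vertices. -/
theorem result : ∀ (n : ℕ) (a B : Fin n → ℝ), 0 < n → Simple a B →
    ∀ A : Finset ℝ, (∀ α ∈ A, 0 < α ∧ α < 1) → ∀ δ : ℝ, 0 < δ → δ ≤ 1 →
    ∃ R : Finset (Fin n), (1 - δ) * n ≤ #R ∧
      (∀ α ∈ A, psi (sub a R) (sub B R) ⌊α * #R⌋₊ ≠ ⊤) ∧
      ∑ α ∈ A, ((psi (sub a R) (sub B R) ⌊α * #R⌋₊).toNat : ℝ) ≤
        720 * n * (1 / δ) ^ (1 / 3 : ℝ) * ∑ α ∈ A, 1 / min α (1 - α) :=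
  fun _ _ _ hn hS A hA _ h0 h1 => Q119.Lev.del_levels hn hS A hA h0 h1

end Pool.Agent.Results.MP_a08d0a_co.ProportionalLevels
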