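import Pool.Agent.Q119.Lev.Sub

/-!
# A single level of a random sub-arrangement of an arbitrary line arrangement

The lines are `y = a l * x + B l`, `l : Fin n`. Definitions:

* `Simple a B`: no two of the lines coincide and no three pass through a common point (parallel
  lines are allowed); `psi a B k`: the number of abscissae near which the `k`-level does not follow
  a single line, i.e. the number of vertices of the `k`-level
  (`Pool/Agent/Results/MP_a08d0a_co/SmoothedLevel.lean`),
* `sub f R`: for a set `R` of indices, the family `f` restricted to `R`, listed in increasing order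
  of the indices (`Pool/Agent/Y344/KD/Lines.lean`); `sub a R`, `sub B R` are the slopes and the
  intercepts of the lines with index in `R`.
-/

set_option autoImplicit false

open Finset

namespace Pool.Agent.Results.MP_a08d0a_co.RandomSubarrangements

open Pool.Agent.Results.MP_a08d0a_co.SmoothedLevel (Simple crossings psi psi_le)
open Pool.Agent.Y344.KD (sub simple_sub toNat_le exists_GP)
open Q119.Lev

/-- Let `n` lines be given, no two equal and no three concurrent, let `m ≤ n` and `k < m`. The
average, over all sub-arrangements of `m` of the lines, of the number of vertices of the `k`-level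
is at most `2880 m (min k (m - 1 - k) + 1) ^ (1 / 6) (n / (n - m + 1)) ^ (1 / 6)`. -/
theorem result : ∀ (n : ℕ) (a B : Fin n → ℝ), Simple a B → ∀ m k : ℕ, m ≤ n → k < m →
    (∀ R ∈ powersetCard m (univ : Finset (Fin n)), psi (sub a R) (sub B R) k ≠ ⊤) ∧
    (∑ R ∈ powersetCard m (univ : Finset (Fin n)), ((psi (sub a R) (sub B R) k).toNat : ℝ)) /
        (n.choose m : ℝ) ≤
      2880 * (m : ℝ) * (((min k (m - 1 - k) : ℕ) : ℝ) + 1) ^ (1 / 6 : ℝ) *
        ((n : ℝ) / ((n : ℝ) - m + 1)) ^ (1 / 6 : ℝ) := by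
  classical
  intro n a B hS m k hmn hkm
  obtain ⟨P, hGP, hP⟩ := exists_GP hS
  have hX0 : (0 : ℝ) < (n.choose m : ℝ) := by exact_mod_cast Nat.choose_pos hmn
  have hpsi : ∀ R ∈ powersetCard m (univ : Finset (Fin n)), psi (sub a R) (sub B R) k ≤
      ((cnt2 P k R + (if k = 0 then 0 else cnt2 P (k - 1) R) : ℕ) : ℕ∞) := by
    intro R hR
    have hc := (mem_powersetCard.mp hR).2
    refine (psi_le (simple_sub hS R) (by omega)).trans ?_
    apply Nat.cast_le.mpr
    apply Nat.add_le_add (cross_sub2 hP R k)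
    split_ifs
    · exact le_rfl
    · exact cross_sub2 hP R (k - 1)
  refine ⟨fun R hR => (toNat_le (hpsi R hR)).1, ?_⟩
  have hmr : (m : ℝ) ≤ n := by exact_mod_cast hmn
  have hz : (0 : ℝ) < (n : ℝ) - m + 1 := by linarith
  have hm0 : (0 : ℝ) ≤ m := Nat.cast_nonneg m
  have hq : (0 : ℝ) ≤ (n : ℝ) / ((n : ℝ) - m + 1) := by positivity
  set Y : ℝ := (((min k (m - 1 - k) : ℕ) : ℝ) + 1) ^ (1 / 6 : ℝ) *
        ((n : ℝ) / ((n : ℝ) - m + 1)) ^ (1 / 6 : ℝ) with hY
  have hY0 : 0 ≤ Y := by positivity
  -- the two levels of crossings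
  have h1 : ((∑ R ∈ powersetCard m (univ : Finset (Fin n)), cnt2 P k R : ℕ) : ℝ) ≤
      1440 * (m : ℝ) * Y * (n.choose m : ℝ) := by
    rcases Nat.lt_or_ge m (k + 2) with h | h
    · have : ∑ R ∈ powersetCard m (univ : Finset (Fin n)), cnt2 P k R = 0 :=
        sum_eq_zero (fun R hR => cnt2_zero h (mem_powersetCard.mp hR).2)
      rw [this, Nat.cast_zero]
      positivity
    · refine (avg_cross hGP h hmn).trans ?_
      have hle : (((((min k (m - 2 - k) : ℕ) : ℝ) + 1) * ((n : ℝ) / ((n : ℝ) - m + 1))) ^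
        (1 / 6 : ℝ)) ≤ Y := by
        rw [hY, ← Real.mul_rpow (by positivity) hq]
        apply Real.rpow_le_rpow (by positivity) _ (by norm_num)
        apply mul_le_mul_of_nonneg_right _ hq
        have : min k (m - 2 - k) ≤ min k (m - 1 - k) := by omega
        have : ((min k (m - 2 - k) : ℕ) : ℝ) ≤ ((min k (m - 1 - k) : ℕ) : ℝ) := by exact_mod_cast this
        linarith
      gcongr
  have h2 : ((∑ R ∈ powersetCard m (univ : Finset (Fin n)),
      (if k = 0 then 0 else cnt2 P (k - 1) R) : ℕ) : ℝ) ≤ 1440 * (m : ℝ) * Y * (n.choose m : ℝ) := by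
    rcases Nat.eq_zero_or_pos k with h | h
    · simp only [h, if_true, sum_const_zero, Nat.cast_zero]
      positivity
    · simp only [if_neg h.ne']
      refine (avg_cross hGP (k := k - 1) (m := m) (by omega) hmn).trans ?_
      have hle : (((((min (k - 1) (m - 2 - (k - 1)) : ℕ) : ℝ) + 1) * ((n : ℝ) / ((n : ℝ) - m + 1))) ^
        (1 / 6 : ℝ)) ≤ Y := by
        rw [hY, ← Real.mul_rpow (by positivity) hq]
        apply Real.rpow_le_rpow (by positivity) _ (by norm_num)
        apply mul_le_mul_of_nonneg_right _ hq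
        have : min (k - 1) (m - 2 - (k - 1)) ≤ min k (m - 1 - k) := by omega
        have : ((min (k - 1) (m - 2 - (k - 1)) : ℕ) : ℝ) ≤ ((min k (m - 1 - k) : ℕ) : ℝ) := by
          exact_mod_cast this
        linarith
      gcongr
  have h3 : ∑ R ∈ powersetCard m (univ : Finset (Fin n)), ((psi (sub a R) (sub B R) k).toNat : ℝ) ≤
      ((∑ R ∈ powersetCard m (univ : Finset (Fin n)), cnt2 P k R : ℕ) : ℝ) +
      ((∑ R ∈ powersetCard m (univ : Finset (Fin n)),
        (if k = 0 then 0 else cnt2 P (k - 1) R) : ℕ) : ℝ) := by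
    rw [← Nat.cast_add, ← sum_add_distrib, Nat.cast_sum]
    apply sum_le_sum
    intro R hR
    exact_mod_cast (toNat_le (hpsi R hR)).2
  rw [div_le_iff₀ hX0]
  calc ∑ R ∈ powersetCard m (univ : Finset (Fin n)), ((psi (sub a R) (sub B R) k).toNat : ℝ) ≤
      1440 * (m : ℝ) * Y * (n.choose m : ℝ) + 1440 * (m : ℝ) * Y * (n.choose m : ℝ) :=
        h3.trans (add_le_add h1 h2)
    _ = _ := by rw [hY]; ring

end Pool.Agent.Results.MP_a08d0a_co.RandomSubarrangements
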